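import Pool.Agent.Y513.Gam.Upper
import Pool.Agent.Y513.Gam.Lower

/-!
# Balls have the largest generalized-strip outer measure

Among all subsets of `ℝ^d` of given Lebesgue (outer) measure the outer measure `γ` is largest for
balls, and `γ` of a ball is its diameter. In particular Lebesgue null sets are `γ`-null.

Upper bound: if no generalized strip of half-width `ε` covers the compact set `K` then every finite
subset of the closed ball of radius `ε` can be mapped into `K` without decreasing distances, by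
compactness the whole ball can, and so `K` has at least the volume of the ball.

Lower bound: a plank theorem for generalized strips, with an estimate for the uncovered volume.
-/

set_option autoImplicit false

open MeasureTheory Metric Set
open scoped ENNReal NNReal
open Pool.Agent.Results.MP_0a22a9_gt.NullSets (E IsGenStrip width gamma)

namespace Pool.Agent.Results.MP_0a22a9_gt.BallsMaximise

/-- **Main result.** -/
theorem result (d : ℕ) (hd : 1 ≤ d) :
    (∀ (A : Set (E d)) (x : E d) (ρ : ℝ≥0), volume A ≤ volume (ball x (ρ : ℝ)) →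
      gamma A ≤ 2 * ρ) ∧
    (∀ (x : E d) (ρ : ℝ≥0), gamma (ball x (ρ : ℝ)) = 2 * ρ) ∧
    (∀ K : Set (E d), IsCompact K → ∀ ρ : ℝ≥0, volume K < volume (ball (0 : E d) (ρ : ℝ)) →
      ∃ S, IsGenStrip S ∧ K ⊆ S ∧ width S ≤ 2 * ρ) ∧
    (∀ (x : E d) (ρ s : ℝ≥0) (S : ℕ → Set (E d)), (∀ i, IsGenStrip (S i)) →
      ∑' i, width (S i) + 2 * s < 2 * ρ →
      volume (ball x (s : ℝ)) ≤ volume (ball x (ρ : ℝ) \ ⋃ i, S i)) ∧
    (∀ A : Set (E d), volume A = 0 → gamma A = 0) := by
  have h1 : ∀ (A : Set (E d)) (x : E d) (ρ : ℝ≥0), volume A ≤ volume (ball x (ρ : ℝ)) →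
      gamma A ≤ 2 * ρ := by
    intro A x ρ hA
    apply Pool.Agent.Y513.Gam.gamma_le hd A ρ
    rwa [Measure.addHaar_ball_center] at hA
  refine ⟨h1, fun x ρ => le_antisymm (h1 _ x ρ le_rfl) (Pool.Agent.Y513.Gam.le_gamma_ball x ρ),
    ?_, fun x ρ s S _ hsum => Pool.Agent.Y513.Gam.plank x hsum, ?_⟩
  · intro K hK ρ hvol
    have hρ : 0 < ρ := by
      rw [pos_iff_ne_zero]
      rintro rfl
      simp at hvol
    obtain ⟨f, hf, hlip, hKf⟩ := Pool.Agent.Y513.Gam.compact_cover_sharp hK hρ hvol
    refine ⟨_, ⟨f, hf, rfl⟩, hKf, ?_⟩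
    unfold width
    gcongr
    refine iInf_le_of_le f (iInf_le_of_le hf (iInf_le_of_le rfl ?_))
    exact iInf_le_of_le ρ (iInf_le_of_le hlip le_rfl)
  · intro A hA
    have h2 := h1 A 0 0 (by rw [hA]; exact zero_le)
    simpa using h2

end Pool.Agent.Results.MP_0a22a9_gt.BallsMaximise
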